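import Pool.Agent.X178.FD.Low
import Pool.Agent.X178.FD.Up

/-!
# The limit of the fractional t-dimension of the two-layer orders `Q_n^{1,k}`

`FD_t(k) = 1 / M k (t - 1)` for all `k ≥ 1`, `t ≥ 2`, where `M k 0 = 0` and
`M k (m + 1) = (k / ((k + 1) (1 - M k m))) ^ k / (k + 1)`.
-/

namespace Pool.Agent.Results.MP_654fb7_co.FractionalTDimension

open Pool.Agent.X178.FD Filter Topology

theorem nonempty' (n k m : ℕ) (hk : 1 ≤ k) :
    {W : ℝ | ∃ w : (Q n k → Fin (m + 1 + 1)) → ℝ, Realiser n k (m + 1 + 1) w ∧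
      ∑ f, w f = W}.Nonempty := by
  obtain ⟨w, hw, h⟩ := up n k m hk
  exact ⟨_, w, hw, h⟩

theorem upper (n k m : ℕ) (hk : 1 ≤ k) : fdim n k (m + 1 + 1) ≤ 1 / M k (m + 1) := by
  refine csInf_le ⟨0, ?_⟩ (up n k m hk)
  rintro W ⟨w, hw, rfl⟩
  exact Finset.sum_nonneg fun f _ => hw.nonneg f

theorem lower (n k m : ℕ) (hk : 1 ≤ k) (hn : k < n) :
    (((n : ℝ) - k) / n) ^ k / M k (m + 1) ≤ fdim n k (m + 1 + 1) := by
  refine le_csInf (nonempty' n k m hk) ?_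
  rintro W ⟨w, hw, rfl⟩
  have h1 := low n k (m + 1) hk w hw
  have hM := M_pos k hk m
  have hn0 : (0 : ℝ) < n := by
    have : 0 < n := by omega
    exact_mod_cast this
  have h2 : (n - k) ^ k ≤ (n - 1).descFactorial k := by
    have h3 := Nat.pow_sub_le_descFactorial (n - 1) k
    rwa [show n - 1 + 1 - k = n - k by omega] at h3
  have h4 : ((n : ℝ) - k) ^ k ≤ ((n - 1).descFactorial k : ℝ) := by
    have h5 : (((n - k) ^ k : ℕ) : ℝ) ≤ ((n - 1).descFactorial k : ℝ) := by exact_mod_cast h2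
    rwa [Nat.cast_pow, Nat.cast_sub hn.le] at h5
  rw [div_le_iff₀ hM, div_pow, div_le_iff₀ (by positivity)]
  have h6 : (n : ℝ) * ((n : ℝ) - k) ^ k ≤ (∑ f, w f) * (M k (m + 1) * (n : ℝ) ^ (k + 1)) :=
    (mul_le_mul_of_nonneg_left h4 hn0.le).trans h1
  have h7 : (∑ f, w f) * (M k (m + 1) * (n : ℝ) ^ (k + 1)) =
      n * ((∑ f, w f) * M k (m + 1) * (n : ℝ) ^ k) := by
    rw [pow_succ]
    ring
  rw [h7] at h6
  exact le_of_mul_le_mul_left h6 hn0

theorem result : ∀ k t : ℕ, 1 ≤ k → 2 ≤ t →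
    0 < M k (t - 1) ∧
    (∀ n : ℕ, k < n → (((n : ℝ) - k) / n) ^ k / M k (t - 1) ≤ fdim n k t ∧
      fdim n k t ≤ 1 / M k (t - 1)) ∧
    Tendsto (fun n : ℕ => fdim n k t) atTop (𝓝 (1 / M k (t - 1))) := by
  intro k t hk ht
  obtain ⟨m, rfl⟩ : ∃ m, t = m + 1 + 1 := ⟨t - 2, by omega⟩
  rw [Nat.add_sub_cancel]
  refine ⟨M_pos k hk m, fun n hn => ⟨lower n k m hk hn, upper n k m hk⟩, ?_⟩
  have h1 : Tendsto (fun n : ℕ => (((n : ℝ) - k) / n) ^ k / M k (m + 1)) atTop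
      (𝓝 (1 / M k (m + 1))) := by
    have h2 : Tendsto (fun n : ℕ => 1 - (k : ℝ) / n) atTop (𝓝 (1 - 0)) :=
      tendsto_const_nhds.sub (tendsto_const_div_atTop_nhds_zero_nat (k : ℝ))
    rw [sub_zero] at h2
    have h3 := (h2.pow k).div_const (M k (m + 1))
    rw [one_pow] at h3
    refine h3.congr' ?_
    filter_upwards [eventually_gt_atTop 0] with n hn
    have hn0 : (n : ℝ) ≠ 0 := by exact_mod_cast hn.ne'
    rw [sub_div, div_self hn0]
  refine tendsto_of_tendsto_of_tendsto_of_le_of_le' h1 tendsto_const_nhds ?_ ?_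
  · filter_upwards [eventually_gt_atTop k] with n hn
    exact lower n k m hk hn
  · filter_upwards with n
    exact upper n k m hk

end Pool.Agent.Results.MP_654fb7_co.FractionalTDimension
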